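import Pool.Agent.THS.StmtsT

/-!
# THS squad, block T: row TCN

The functions `Theta_c` have no common zero.
-/

namespace Pool.Agent.THS.H87

open scoped BigOperators
open Pool.Agent.THS

/-- row TCN -/
theorem tcn : PrdStatement → TldStatement → TnvStatement → LprStatement → TcnStatement := by
  intro PRD TLD TNV LPR g τ hτ x
  by_contra hcon
  push Not at hcon
  obtain ⟨z0, hz0⟩ := TNV g τ hτ
  -- the product vanishes on all pairs with sum 2 x
  have hprod : ∀ a b : Fin g → ℂ, (∀ i, a i + b i = 2 * x i) →
      ths τ 0 a * ths τ 0 b = 0 := by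
    intro a b hab
    rw [PRD g τ hτ 0 a b]
    apply Finset.sum_eq_zero
    intro c _
    have h1 : ths ((2 : ℂ) • τ) (fun i => (0 : Fin g → ℝ) i + hv c i) (fun i => a i + b i)
        = Thc τ c x := by
      unfold Thc
      congr 1
      · funext i
        simp
      · funext i
        exact hab i
    rw [h1, hcon c, zero_mul]
  have hf : Differentiable ℂ (fun t : ℂ => ths τ 0 (fun i => z0 i + t * (2 * (x i - z0 i)))) :=
    TLD g τ hτ 0 z0 (fun i => 2 * (x i - z0 i))
  have hh : Differentiable ℂ
      (fun t : ℂ => ths τ 0 (fun i => (2 * x i - z0 i) + t * (2 * (z0 i - x i)))) :=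
    TLD g τ hτ 0 (fun i => 2 * x i - z0 i) (fun i => 2 * (z0 i - x i))
  obtain ⟨t, ht1, ht2⟩ := LPR _ _ hf hh
    (by
      have : (fun i => z0 i + (0 : ℂ) * (2 * (x i - z0 i))) = z0 := by
        funext i
        ring
      simpa only [this] using hz0)
    (by
      have : (fun i => (2 * x i - z0 i) + (1 : ℂ) * (2 * (z0 i - x i))) = z0 := by
        funext i
        ring
      simpa only [this] using hz0)
  have h0 := hprod (fun i => z0 i + t * (2 * (x i - z0 i)))
    (fun i => (2 * x i - z0 i) + t * (2 * (z0 i - x i))) (fun i => by ring)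
  rcases mul_eq_zero.mp h0 with h | h
  · exact ht1 h
  · exact ht2 h

end Pool.Agent.THS.H87
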